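import Pool.Agent.Y530.TN.Stm
import Pool.Agent.Y435.TB.Elim

/-!
# Project TN, job NUM4: three bodies, four bars, all permutations

Proof by helper768, with the elimination checker of helper435.
-/

set_option autoImplicit false

namespace Pool.Agent.Y768.TN.Num4

open Finset Pool.Agent.W824.BJ Pool.Agent.Y530.BB Pool.Agent.Y530.TN Pool.Agent.Y435.TB

/-- Pluecker coordinates -/
def plu (X Y : Fin 4 → ℤ) : Fin 6 → ℤ :=
  ![X 0 * Y 1 - X 1 * Y 0, X 0 * Y 2 - X 2 * Y 0, X 0 * Y 3 - X 3 * Y 0,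
    X 1 * Y 2 - X 2 * Y 1, X 1 * Y 3 - X 3 * Y 1, X 2 * Y 3 - X 3 * Y 2]

/-- the points -/
def PZ : Fin 3 → Fin 4 → Fin 4 → ℤ :=
  ![![![1, 0, 0, 0], ![0, 1, 0, 0], ![0, 0, 1, 0], ![0, 0, 0, 1]],
    ![![0, 1, 0, 0], ![1, 0, 1, 1], ![-2, 1, 0, -1], ![1, -1, -2, -1]],
    ![![0, 0, -1, 2], ![0, 1, 0, 2], ![0, 1, 0, 1], ![0, 1, -1, 1]]]

/-- first body of a line -/
def sA : Fin 3 → Fin 3 := ![0, 0, 1]

/-- second body of a line -/
def sB : Fin 3 → Fin 3 := ![1, 2, 2]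

/-- the index of the second point of a line -/
def sI (σ : Fin 4 → Fin 4) (t : Fin 3) (k : Fin 4) : Fin 4 :=
  if t = 2 then σ k else k

/-- the lines -/
def line (σ : Fin 4 → Fin 4) (t : Fin 3) (k : Fin 4) : Fin 6 → ℤ :=
  plu (PZ (sA t) k) (PZ (sB t) (sI σ t k))

/-- the incidences -/
def coef : Fin 3 → Fin 2 → ℤ :=
  ![![1, 0], ![0, 1], ![1, -1]]

/-- the matrix -/
def Mx (σ : Fin 4 → Fin 4) (i j : Fin 12) : ℤ :=
  let a := (finProdFinEquiv (m := 3) (n := 4)).symm i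
  let b := (finProdFinEquiv (m := 2) (n := 6)).symm j
  coef a.1 b.1 * line σ a.1 a.2 b.2

/-- the permutations -/
def pm : Fin 24 → Fin 4 → Fin 4 :=
  ![![0, 1, 2, 3],
    ![0, 1, 3, 2],
    ![0, 2, 1, 3],
    ![0, 2, 3, 1],
    ![0, 3, 1, 2],
    ![0, 3, 2, 1],
    ![1, 0, 2, 3],
    ![1, 0, 3, 2],
    ![1, 2, 0, 3],
    ![1, 2, 3, 0],
    ![1, 3, 0, 2],
    ![1, 3, 2, 0],
    ![2, 0, 1, 3],
    ![2, 0, 3, 1],
    ![2, 1, 0, 3],
    ![2, 1, 3, 0],
    ![2, 3, 0, 1],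
    ![2, 3, 1, 0],
    ![3, 0, 1, 2],
    ![3, 0, 2, 1],
    ![3, 1, 0, 2],
    ![3, 1, 2, 0],
    ![3, 2, 0, 1],
    ![3, 2, 1, 0]]

theorem pm_surj : ∀ σ : Fin 4 → Fin 4, Function.Injective σ → ∃ a, pm a = σ := by
  decide +kernel

theorem chk : ∀ a : Fin 24, elim 10007 12 (resid 10007 (Mx (pm a))) = true := by
  decide +kernel

/-- the rational points -/
def PR (a : Fin 3) (k : Fin 4) (c : Fin 4) : ℚ := (PZ a k c : ℚ)

theorem sum_plu (n : Fin 6 → ℚ) (X Y : Fin 4 → ℤ) :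
    ∑ c, ((plu X Y c : ℤ) : ℚ) * n c = pr n (fun i => (X i : ℚ)) (fun i => (Y i : ℚ)) := by
  simp only [Fin.sum_univ_six, plu, pr]
  simp
  ring

theorem row (σ : Fin 4 → Fin 4) (n : Fin 3 → Fin 6 → ℚ) (t : Fin 3) (k : Fin 4) :
    ∑ j, (Mx σ (finProdFinEquiv (t, k)) j : ℚ) *
      n ((finProdFinEquiv (m := 2) (n := 6)).symm j).1.succ
        ((finProdFinEquiv (m := 2) (n := 6)).symm j).2 =
    ∑ w, (coef t w : ℚ) * pr (n w.succ) (PR (sA t) k) (PR (sB t) (sI σ t k)) := by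
  rw [← (finProdFinEquiv (m := 2) (n := 6)).sum_comp, Fintype.sum_prod_type]
  refine Finset.sum_congr rfl fun w _ => ?_
  have h := sum_plu (n w.succ) (PZ (sA t) k) (PZ (sB t) (sI σ t k))
  have h' : pr (n w.succ) (PR (sA t) k) (PR (sB t) (sI σ t k)) =
    ∑ c, ((plu (PZ (sA t) k) (PZ (sB t) (sI σ t k)) c : ℤ) : ℚ) * n w.succ c := h.symm
  rw [h', Finset.mul_sum]
  refine Finset.sum_congr rfl fun c _ => ?_
  simp only [Mx, Equiv.symm_apply_apply, line]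
  push_cast
  ring

theorem t : S_NUM 4 := by
  have : Fact (Nat.Prime 10007) := ⟨by norm_num⟩
  refine ⟨PR, ?_⟩
  intro σ hσ n h0 h1 h2 h3
  obtain ⟨a, rfl⟩ := pm_surj σ hσ
  have key := injective_of_elim 10007 (Mx (pm a)) (chk a)
    (fun j => n ((finProdFinEquiv (m := 2) (n := 6)).symm j).1.succ
        ((finProdFinEquiv (m := 2) (n := 6)).symm j).2) ?_
  · funext w i
    refine Fin.cases ?_ (fun w => ?_) w
    · rw [h0]
      rfl
    · have := congrFun key (finProdFinEquiv (w, i))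
      simpa using this
  · intro i
    obtain ⟨⟨t, k⟩, rfl⟩ := (finProdFinEquiv (m := 3) (n := 4)).surjective i
    rw [row]
    rw [Fin.sum_univ_two]
    fin_cases t
    · have := h1 k
      simp [coef, sA, sB, sI]
      exact this
    · have := h2 k
      simp [coef, sA, sB, sI]
      exact this
    · have := h3 k
      simp [coef, sA, sB, sI]
      simp only [pr, Pi.sub_apply] at this ⊢
      linear_combination this

end Pool.Agent.Y768.TN.Num4
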